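import Pool.Agent.Helper85.IA.St

/-!
# Project IA (MP_953b28_co), module TDB
-/

set_option autoImplicit false

namespace Pool.Agent.Helper47.IA85

open Finset Pool.Agent.Helper93.IA Pool.Agent.Helper85.IA

section aux

variable {α β γ : Type} [Fintype α] [Fintype β] [Fintype γ] [DecidableEq α] [DecidableEq β]
  [DecidableEq γ]

private theorem yd {Λ ε δ d : ℝ} {n : ℕ} {A : Finset (α × β)} {B : Finset (β × γ)}
    {C : Finset (γ × α)} {x : α → β → γ → ℝ} (hε : 0 < ε) (hε8 : ε ≤ 1 / 8)
    (hD : Dat Λ δ d n A B C x) : Yd ε (ε * (Λ / n)) (fun a b c => ε * x a b c) where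
  e1 := by linarith
  nn := fun a b c => mul_nonneg hε.le (hD.x0 a b c)
  le := fun a b c => mul_le_mul_of_nonneg_left (hD.xl a b c) hε.le
  sA := fun a b => by
    rw [← Finset.mul_sum]
    exact mul_le_of_le_one_right hε.le (hD.uA a b)
  sB := fun b c => by
    rw [← Finset.mul_sum]
    exact mul_le_of_le_one_right hε.le (hD.uB b c)
  sC := fun c a => by
    rw [← Finset.mul_sum]
    exact mul_le_of_le_one_right hε.le (hD.uC c a)

private theorem card_fst (a : α) :
    ((univ : Finset (α × β)).filter fun p => p.1 = a).card = Fintype.card β := by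
  have h : ((univ : Finset (α × β)).filter fun p => p.1 = a) =
      (univ : Finset β).image (fun b => (a, b)) := by
    ext ⟨p, q⟩
    simp only [mem_filter, mem_univ, true_and, mem_image, Prod.mk.injEq]
    constructor
    · rintro rfl
      exact ⟨q, rfl, rfl⟩
    · rintro ⟨_, h, _⟩
      exact h.symm
  rw [h, card_image_of_injective _ (fun b b' hb => (Prod.mk.inj hb).2), card_univ]

private theorem card_snd (b : β) :
    ((univ : Finset (α × β)).filter fun p => p.2 = b).card = Fintype.card α := by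
  have h : ((univ : Finset (α × β)).filter fun p => p.2 = b) =
      (univ : Finset α).image (fun a => (a, b)) := by
    ext ⟨p, q⟩
    simp only [mem_filter, mem_univ, true_and, mem_image, Prod.mk.injEq]
    constructor
    · rintro rfl
      exact ⟨p, rfl, rfl⟩
    · rintro ⟨_, _, h⟩
      exact h.symm
  rw [h, card_image_of_injective _ (fun b b' hb => (Prod.mk.inj hb).1), card_univ]

omit [Fintype α] in
private theorem sum_d1 (B : Finset (α × β)) (a : α) (K : ℝ) :
    ∑ c, (if (a, c) ∈ B then K else 0) = K * d1 B a := by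
  rw [← Finset.sum_filter, Finset.sum_const, nsmul_eq_mul, mul_comm]
  congr 2
  unfold d1
  rw [← card_image_of_injective (univ.filter fun c => (a, c) ∈ B) (f := fun c => (a, c))
    (fun b b' hb => (Prod.mk.inj hb).2)]
  congr 1
  ext ⟨p, q⟩
  simp only [mem_filter, mem_univ, true_and, mem_image, Prod.mk.injEq]
  constructor
  · rintro ⟨c, hc, rfl, rfl⟩
    exact ⟨hc, rfl⟩
  · rintro ⟨hc, rfl⟩
    exact ⟨q, hc, rfl, rfl⟩

omit [Fintype β] in
private theorem sum_d2 (B : Finset (α × β)) (b : β) (K : ℝ) :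
    ∑ c, (if (c, b) ∈ B then K else 0) = K * d2 B b := by
  rw [← Finset.sum_filter, Finset.sum_const, nsmul_eq_mul, mul_comm]
  congr 2
  unfold d2
  rw [← card_image_of_injective (univ.filter fun c => (c, b) ∈ B) (f := fun c => (c, b))
    (fun b b' hb => (Prod.mk.inj hb).1)]
  congr 1
  ext ⟨p, q⟩
  simp only [mem_filter, mem_univ, true_and, mem_image, Prod.mk.injEq]
  constructor
  · rintro ⟨c, hc, rfl, rfl⟩
    exact ⟨hc, rfl⟩
  · rintro ⟨hc, rfl⟩
    exact ⟨p, hc, rfl, rfl⟩

private theorem mean (hKMN : StKMN) {Λ ε δ d : ℝ} {n : ℕ} {A : Finset (α × β)}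
    {B : Finset (β × γ)} {C : Finset (γ × α)} {x : α → β → γ → ℝ} (hε : 0 < ε)
    (hε8 : ε ≤ 1 / 8) (hδ : δ ≤ 1 / 4) (hD : Dat Λ δ d n A B C x) (b : β) (c : γ) :
    E (fun a b c => ε * x a b c) (fun σ => if (b, c) ∈ B then 1 - kB σ b c else 0) ≤
      if (b, c) ∈ B then 1 - ε / 2 else 0 := by
  by_cases h : (b, c) ∈ B
  · simp only [if_pos h]
    have h1 := ((hKMN α β γ ε _ _ (yd hε hε8 hD)).2.1 b c).2
    simp only [← Finset.mul_sum] at h1
    have h2 := hD.lB b c h
    have h3 : E (fun a b c => ε * x a b c) (fun σ => 1 - kB σ b c) =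
        1 - E (fun a b c => ε * x a b c) (fun σ => kB σ b c) := by
      unfold E
      rw [Ex_sub, Ex_one (wt_sum _)]
    rw [h3]
    have h4 : (3 : ℝ) / 4 ≤ ∑ a, x a b c := by linarith
    have h5 : (1 : ℝ) / 2 ≤ (1 - 2 * ε) * ∑ a, x a b c := by nlinarith
    nlinarith
  · simp only [if_neg h]
    unfold E
    rw [Ex_const (wt_sum _)]

end aux

/-- TDB. -/
theorem hTDB : StKUB → StLO1 → StLO2 → StKMN → StTDB := by
  intro _hKUB hLO1 hLO2 hKMN α β γ _ _ _ _ _ _ Λ ε δ d η n A B C x hΛ hε hε8 hδ0 hδ hη hn hD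
  constructor
  · intro b
    obtain ⟨a⟩ : Nonempty α := by
      rw [← Fintype.card_pos_iff, hD.nα]
      exact hn
    have hf : (fun σ : α × β → Option γ => ∑ c, (if (b, c) ∈ B then 1 - kB σ b c else 0)) =
        fun σ => F1 σ (fun c => if (b, c) ∈ B then 1 else 0) 1 0 a b := by
      funext σ
      unfold F1
      refine Finset.sum_congr rfl fun c _ => ?_
      by_cases h : (b, c) ∈ B <;> simp [h]
    refine ⟨univ.filter fun p => p.1 = a ∨ p.2 = b, ?_, ?_, ?_⟩
    · rw [hf]
      refine hLO1 α β γ _ 1 0 a b (fun c => ?_) zero_le_one le_rfl le_rfl zero_le_one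
      split_ifs <;> norm_num
    · rw [Finset.filter_or]
      refine (Finset.card_union_le _ _).trans ?_
      rw [card_fst, card_snd, hD.nα, hD.nβ]
      omega
    · refine add_le_add ?_ le_rfl
      rw [← sum_d1]
      have h1 : E (fun a b c => ε * x a b c)
          (fun σ => ∑ c, (if (b, c) ∈ B then 1 - kB σ b c else 0)) =
          ∑ c, E (fun a b c => ε * x a b c)
            (fun σ => if (b, c) ∈ B then 1 - kB σ b c else 0) := by
        unfold E
        exact Ex_sum _ _
      rw [h1]
      exact Finset.sum_le_sum fun c _ => mean hKMN hε hε8 hδ hD b c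
  · intro c
    obtain ⟨a⟩ : Nonempty α := by
      rw [← Fintype.card_pos_iff, hD.nα]
      exact hn
    have hf : (fun σ : α × β → Option γ => ∑ b, (if (b, c) ∈ B then 1 - kB σ b c else 0)) =
        fun σ => F2 σ (fun b => if (b, c) ∈ B then 1 else 0) 0 1 c a := by
      funext σ
      unfold F2
      refine Finset.sum_congr rfl fun b _ => ?_
      by_cases h : (b, c) ∈ B <;> simp [h]
    refine ⟨univ.filter fun p => p.1 = a, ?_, ?_, ?_⟩
    · rw [hf]
      refine hLO2 α β γ _ 0 1 c a (fun b => ?_) le_rfl zero_le_one zero_le_one le_rfl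
      split_ifs <;> norm_num
    · rw [card_fst, hD.nβ]
      omega
    · refine add_le_add ?_ le_rfl
      rw [← sum_d2]
      have h1 : E (fun a b c => ε * x a b c)
          (fun σ => ∑ b, (if (b, c) ∈ B then 1 - kB σ b c else 0)) =
          ∑ b, E (fun a b c => ε * x a b c)
            (fun σ => if (b, c) ∈ B then 1 - kB σ b c else 0) := by
        unfold E
        exact Ex_sum _ _
      rw [h1]
      exact Finset.sum_le_sum fun b _ => mean hKMN hε hε8 hδ hD b c

end Pool.Agent.Helper47.IA85
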